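import Pool.Agent.Helper26.CL.St

/-! # Project CM, module Rie: Riemann sums of continuous functions -/

set_option autoImplicit false

open scoped BigOperators ENNReal Topology Pointwise
open Pool.LE Pool.NL Filter

namespace Pool.CN

namespace RieM

/-- the open unit cube -/
def cube (d : ℕ) : Set (Fin d → ℝ) := Set.univ.pi fun _ => Set.Ioo (0 : ℝ) 1

theorem mem_cube {d : ℕ} {x : Fin d → ℝ} : x ∈ cube d ↔ ∀ i, 0 < x i ∧ x i < 1 := by
  simp [cube, Set.mem_pi]

theorem rs_inj {d n : ℕ} : Function.Injective (rs n : Zd d → Fin d → ℝ) := by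
  intro x y h
  funext i
  have h1 := congrFun h i
  unfold rs at h1
  have hn : ((n : ℝ) + 1) ≠ 0 := by positivity
  rw [div_left_inj' hn, add_left_inj] at h1
  exact_mod_cast h1

theorem image_eq (hBn : StBn) (d n : ℕ) :
    ((rs n) '' ((Bn d n : Finset (Zd d)) : Set (Zd d)) : Set (Fin d → ℝ)) =
      cube d ∩ (((n + 1 : ℕ) : ℝ))⁻¹ • (Submodule.span ℤ (Set.range (Pi.basisFun ℝ (Fin d))) : Set (Fin d → ℝ)) := by
  obtain ⟨-, -, -, hmem, -⟩ := hBn d n
  have hn : (0 : ℝ) < (n : ℝ) + 1 := by positivity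
  ext v
  rw [Set.mem_inter_iff, mem_cube, Set.mem_image]
  constructor
  · rintro ⟨x, hx, rfl⟩
    have hx' := (hmem x).1 (Finset.mem_coe.1 hx)
    refine ⟨fun i => ?_, ?_⟩
    · obtain ⟨h0, h1⟩ := hx' i
      have h0' : (0 : ℝ) ≤ x i := by exact_mod_cast h0
      have h1' : (x i : ℝ) < n := by exact_mod_cast h1
      unfold rs
      constructor
      · positivity
      · rw [div_lt_one hn]; linarith
    · rw [← Submodule.coe_pointwise_smul, SetLike.mem_coe, BoxIntegral.unitPartition.mem_smul_span_iff]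
      intro i
      refine ⟨x i + 1, ?_⟩
      unfold rs
      push_cast
      rw [mul_div_cancel₀ _ hn.ne']
      simp
  · rintro ⟨h1, h2⟩
    rw [← Submodule.coe_pointwise_smul, SetLike.mem_coe, BoxIntegral.unitPartition.mem_smul_span_iff] at h2
    choose a ha using h2
    have ha' : ∀ i, (a i : ℝ) = ((n : ℝ) + 1) * v i := by
      intro i
      have := ha i
      push_cast at this
      simpa using this
    refine ⟨fun i => a i - 1, ?_, ?_⟩
    · rw [Finset.mem_coe, hmem]
      intro i
      obtain ⟨h3, h4⟩ := h1 i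
      have h5 : (0 : ℝ) < a i := by rw [ha']; positivity
      have h6 : (a i : ℝ) < n + 1 := by
        rw [ha']
        have := mul_lt_mul_of_pos_left h4 hn
        linarith
      have h5' : 0 < a i := by exact_mod_cast h5
      have h6' : a i < n + 1 := by exact_mod_cast h6
      constructor
      · show 0 ≤ a i - 1
        omega
      · show a i - 1 < n
        omega
    · funext i
      unfold rs
      push_cast
      rw [ha']
      field_simp
      ring

end RieM

open RieM

theorem hRie (hBn : StBn) : StRie := by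
  classical
  intro d g hg
  have hconv : Convex ℝ (cube d) := convex_pi fun _ _ => convex_Ioo 0 1
  have hb : Bornology.IsBounded (cube d) := by
    refine (Bornology.IsBounded.pi fun i => ?_)
    exact Metric.isBounded_Ioo 0 1
  have hm : MeasurableSet (cube d) := MeasurableSet.univ_pi fun _ => measurableSet_Ioo
  have hf : MeasureTheory.volume (frontier (cube d)) = 0 := hconv.addHaar_frontier _
  have h1 := tendsto_tsum_div_pow_atTop_integral (cube d) g hg hb hm hf
  refine ⟨∫ x in cube d, g x, ?_⟩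
  have h2 := h1.comp (tendsto_add_atTop_nat 1)
  have h3 : Tendsto (fun n : ℕ => (((n : ℝ) + 1) / n) ^ d) atTop (𝓝 1) := by
    have h4 : Tendsto (fun n : ℕ => ((n : ℝ) + 1) / n) atTop (𝓝 1) := by
      have h5 : Tendsto (fun n : ℕ => 1 + 1 / (n : ℝ)) atTop (𝓝 (1 + 0)) :=
        tendsto_const_nhds.add tendsto_one_div_atTop_nhds_zero_nat
      rw [add_zero] at h5
      refine h5.congr' ?_
      filter_upwards [eventually_gt_atTop 0] with n hn
      have : (n : ℝ) ≠ 0 := by positivity
      field_simp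
    simpa using h4.pow d
  have h6 := h2.mul h3
  rw [mul_one] at h6
  refine h6.congr' ?_
  filter_upwards [eventually_gt_atTop 0] with n hn
  have hn0 : (n : ℝ) ≠ 0 := by positivity
  have hn1 : ((n : ℝ) + 1) ≠ 0 := by positivity
  have hsum : (∑' x : ↑(cube d ∩ (((n + 1 : ℕ) : ℝ))⁻¹ •
      (Submodule.span ℤ (Set.range (Pi.basisFun ℝ (Fin d))) : Set (Fin d → ℝ))), g x) =
      ∑ x ∈ Bn d n, g (rs n x) := by
    rw [← image_eq hBn d n, ← Finset.coe_image, Finset.tsum_subtype' ((Bn d n).image (rs n)) g,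
      Finset.sum_image fun x _ y _ h => rs_inj h]
  show (∑' x : ↑(cube d ∩ (((n + 1 : ℕ) : ℝ))⁻¹ •
      (Submodule.span ℤ (Set.range (Pi.basisFun ℝ (Fin d))) : Set (Fin d → ℝ))), g x) /
      ((n + 1 : ℕ) : ℝ) ^ Fintype.card (Fin d) * (((n : ℝ) + 1) / n) ^ d = _
  rw [hsum, Fintype.card_fin, div_pow]
  push_cast
  field_simp

end Pool.CN
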